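import Pool.Agent.MP_720825_lc_Complete
import Pool.Agent.DPRM.Interface

/-!
MP_720825_lc: there is no algorithm deciding whether a group word is expressible in given
words on every group; this holds even for one fixed finite list of words.
-/

set_option autoImplicit false

open scoped commutatorElement

namespace Pool.Agent.Results.MP_720825_lc.Undecidable

open Pool.Agent.MP720825 Pool.Agent.DPRM

universe u

def elemEq : Elem → List Term
  | .one i => [(true, some i, none), (false, none, none)]
  | .add i j k => [(true, some i, none), (true, some j, none), (false, some k, none)]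
  | .mul i j k => [(true, some i, some j), (false, some k, none)]

def elemBound : Elem → ℕ
  | .one i => i + 1
  | .add i j k => i + j + k + 1
  | .mul i j k => i + j + k + 1

def consEq (i : ℕ) : List Term := [(true, some i, none), (false, none, some i)]

def bound (es : List Elem) : ℕ := (es.map elemBound).sum + 1

def tailEqs (es : List Elem) : List (List Term) :=
  es.map elemEq ++ (List.range (bound es)).map consEq

def sys (es : List Elem) : Sys where
  L := (tailEqs es).length + 1
  m := bound es
  eq := fun l => (([(true, some 0, none)] : List Term) :: tailEqs es).getD l []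

theorem elemBound_le (es : List Elem) (e : Elem) (h : e ∈ es) : elemBound e < bound es := by
  unfold bound
  have := List.single_le_sum (l := es.map elemBound) (fun _ _ => Nat.zero_le _) (elemBound e)
    (List.mem_map_of_mem h)
  omega

theorem sys_bound (es : List Elem) : ∀ l < (sys es).L, ∀ t ∈ (sys es).eq l,
    (∀ i ∈ t.2.1, i < (sys es).m) ∧ ∀ i ∈ t.2.2, i < (sys es).m := by
  intro l hl t ht
  change t ∈ (([(true, some 0, none)] : List Term) :: tailEqs es).getD l [] at ht
  change (∀ i ∈ t.2.1, i < bound es) ∧ ∀ i ∈ t.2.2, i < bound es
  cases l with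
  | zero =>
    have : t = (true, some 0, none) := by simpa using ht
    subst this
    simp [bound]
  | succ l =>
    change l + 1 < (tailEqs es).length + 1 at hl
    rw [List.getD_cons_succ, List.getD_eq_getElem _ _ (by omega)] at ht
    have hmem := List.getElem_mem (l := tailEqs es) (n := l) (by omega)
    generalize (tailEqs es)[l] = q at ht hmem
    unfold tailEqs at hmem
    rw [List.mem_append] at hmem
    rcases hmem with h | h
    · obtain ⟨e, he, rfl⟩ := List.mem_map.1 h
      have hb := elemBound_le es e he
      cases e with
      | one i =>
        simp only [elemBound] at hb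
        simp only [elemEq, List.mem_cons, List.not_mem_nil, or_false] at ht
        rcases ht with rfl | rfl <;> simp <;> omega
      | add i j k =>
        simp only [elemBound] at hb
        simp only [elemEq, List.mem_cons, List.not_mem_nil, or_false] at ht
        rcases ht with rfl | rfl | rfl <;> simp <;> omega
      | mul i j k =>
        simp only [elemBound] at hb
        simp only [elemEq, List.mem_cons, List.not_mem_nil, or_false] at ht
        rcases ht with rfl | rfl <;> simp <;> omega
    · obtain ⟨i, hi, rfl⟩ := List.mem_map.1 h
      rw [List.mem_range] at hi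
      simp only [consEq, List.mem_cons, List.not_mem_nil, or_false] at ht
      rcases ht with rfl | rfl <;> simp <;> omega

theorem solvable_iff (es : List Elem) (n : ℤ) : (sys es).Solvable n ↔
    ∃ v w : ℕ → ℤ, v 0 = n ∧ ∀ q ∈ tailEqs es, (q.map (Term.val v w)).sum = 0 := by
  unfold Sys.Solvable
  refine exists_congr fun v => exists_congr fun w => ⟨fun h => ⟨?_, ?_⟩, fun h => ?_⟩
  · have := h 0 (Nat.succ_pos _)
    change (([(true, some 0, none)] : List Term).map (Term.val v w)).sum = n at this
    simpa [Term.val] using this
  · intro q hq
    obtain ⟨l, hl, rfl⟩ := List.mem_iff_getElem.1 hq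
    have := h (l + 1) (Nat.succ_lt_succ hl)
    change (((([(true, some 0, none)] : List Term) :: tailEqs es).getD (l + 1) []).map
      (Term.val v w)).sum = 0 at this
    rwa [List.getD_cons_succ, List.getD_eq_getElem _ _ hl] at this
  · intro l hl
    cases l with
    | zero =>
      change (([(true, some 0, none)] : List Term).map (Term.val v w)).sum = n
      simpa [Term.val] using h.1
    | succ l =>
      have hl' : l < (tailEqs es).length := Nat.lt_of_succ_lt_succ hl
      change (((([(true, some 0, none)] : List Term) :: tailEqs es).getD (l + 1) []).map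
        (Term.val v w)).sum = 0
      rw [List.getD_cons_succ, List.getD_eq_getElem _ _ hl']
      exact h.2 _ (List.getElem_mem _)

theorem solvable_iff' (es : List Elem) (n : ℤ) : (sys es).Solvable n ↔
    ∃ v : ℕ → ℤ, v 0 = n ∧ ∀ e, e ∈ es → e.Holds v := by
  rw [solvable_iff]
  constructor
  · rintro ⟨v, w, h0, h⟩
    refine ⟨v, h0, fun e he => ?_⟩
    have hvw : ∀ i < bound es, w i = v i := by
      intro i hi
      have := h (consEq i) (List.mem_append.2 (Or.inr (List.mem_map_of_mem
        (List.mem_range.2 hi))))
      simp [consEq, Term.val] at this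
      omega
    have h1 := h (elemEq e) (List.mem_append.2 (Or.inl (List.mem_map_of_mem he)))
    have hb := elemBound_le es e he
    cases e with
    | one i =>
      simp [elemEq, Term.val] at h1
      change v i = 1
      omega
    | add i j k =>
      simp [elemEq, Term.val] at h1
      change v i + v j = v k
      omega
    | mul i j k =>
      simp only [elemBound] at hb
      simp [elemEq, Term.val] at h1
      rw [hvw j (by omega)] at h1
      change v i * v j = v k
      omega
  · rintro ⟨v, h0, h⟩
    refine ⟨v, v, h0, fun q hq => ?_⟩
    unfold tailEqs at hq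
    rw [List.mem_append] at hq
    rcases hq with hq | hq
    · obtain ⟨e, he, rfl⟩ := List.mem_map.1 hq
      have := h e he
      cases e with
      | one i =>
        change v i = 1 at this
        simp [elemEq, Term.val]
        omega
      | add i j k =>
        change v i + v j = v k at this
        simp [elemEq, Term.val]
        omega
      | mul i j k =>
        change v i * v j = v k at this
        simp [elemEq, Term.val]
        omega
    · obtain ⟨i, _, rfl⟩ := List.mem_map.1 hq
      simp [consEq, Term.val]

/-- The target word. -/
def wT (L n : ℕ) : Word :=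
  (Lam L (FreeGroup.of : ℕ → FreeGroup ℕ)).toWord ++
    Nat.rec (motive := fun _ => Word) [] (fun _ acc => acc ++ (tz (FreeGroup.of : ℕ → FreeGroup ℕ)).toWord) n

theorem mk_wT (L n : ℕ) : FreeGroup.mk (wT L n) = target L n (FreeGroup.of : ℕ → FreeGroup ℕ) := by
  have h : ∀ n : ℕ, FreeGroup.mk (Nat.rec (motive := fun _ => Word) []
      (fun _ acc => acc ++ (tz (FreeGroup.of : ℕ → FreeGroup ℕ)).toWord) n) =
      (tz (FreeGroup.of : ℕ → FreeGroup ℕ)) ^ n := by
    intro n
    induction n with
    | zero => rfl
    | succ n ih =>
      rw [pow_succ, ← ih]
      change FreeGroup.mk (_ ++ _) = _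
      rw [← FreeGroup.mul_mk, FreeGroup.mk_toWord]
  unfold wT target
  rw [← FreeGroup.mul_mk, FreeGroup.mk_toWord, h]

theorem computable_wT (L : ℕ) : Computable (wT L) := by
  apply Primrec.to_comp
  refine Primrec.list_append.comp (Primrec.const _) ?_
  refine Primrec.nat_rec₁ _ ?_
  exact Primrec.list_append.comp Primrec.snd (Primrec.const _)

theorem clo_map {G : Type*} [Group G] {H : Type*} [Group H] (f : G →* H) {Bs : List Word}
    {ρ : ℕ → G} {g : G} (h : Clo Bs ρ g) : Clo Bs (fun i => f (ρ i)) (f g) := by
  induction h with
  | var i => exact Clo.var i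
  | app B hB σ h ih =>
    have : f (B.eval σ) = B.eval (fun i => f (σ i)) := by
      rw [Word.eval_eq_lift, Word.eval_eq_lift]
      have h2 : FreeGroup.lift (fun i => f (σ i)) = f.comp (FreeGroup.lift σ) := by
        ext i; simp
      rw [h2]; rfl
    rw [this]
    exact Clo.app B hB _ ih

theorem main_iff (es : List Elem) (n : ℕ) :
    ExpressibleOnEveryGroup.{u} (wT (sys es).L n) (ops (sys es)) ↔
      ∃ v : ℕ → ℤ, v 0 = n ∧ ∀ e, e ∈ es → e.Holds v := by
  rw [← solvable_iff']
  constructor
  · intro h
    apply sound _ n (Nat.succ_pos _) (sys_bound es)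
    apply C_of_clo
    have h1 := h (ULift.{u} P)
    have h2 := clo_of_expressible (fun i => ULift.up (rho i)) h1
    have h3 := clo_map (MulEquiv.ulift (α := P)).toMonoidHom h2
    have h4 : (MulEquiv.ulift (α := P)).toMonoidHom
        (Word.eval (fun i => ULift.up.{u} (rho i)) (wT (sys es).L n)) =
        target (sys es).L n rho := by
      rw [Word.eval_eq_lift, mk_wT]
      unfold target
      rw [map_mul, map_pow, map_mul, map_pow, map_Lam, map_tz, map_Lam, map_tz]
      simp
      rfl
    rw [h4] at h3
    exact h3
  · intro h G _
    exact expressible_of_clo (complete _ n (Nat.succ_pos _) h) _ (mk_wT _ _)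

theorem result :
    (∃ Bs : List Word, Bs ≠ [] ∧
      ¬ ComputablePred fun A : Word => ExpressibleOnEveryGroup.{u} A Bs) ∧
    ¬ ComputablePred fun t : Word × Word × List Word =>
      ExpressibleOnEveryGroup.{u} t.1 (t.2.1 :: t.2.2) := by
  obtain ⟨es, hes⟩ := fixed_undecidable
  refine ⟨⟨ops (sys es), by simp [ops], fun h => ?_⟩, fun h => ?_⟩
  · apply hes
    refine ComputablePred.computable_of_manyOneReducible
      (⟨wT (sys es).L, computable_wT _, fun n => ?_⟩ : ManyOneReducible _ _) h
    exact (main_iff es n).symm
  · apply hes
    refine ComputablePred.computable_of_manyOneReducible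
      (⟨fun n => (wT (sys es).L n, wM, (ops (sys es)).tail),
        (computable_wT _).pair (Computable.const _), fun n => ?_⟩ : ManyOneReducible _ _) h
    exact (main_iff es n).symm

end Pool.Agent.Results.MP_720825_lc.Undecidable
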